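import Pool.Agent.Y924.EL.Main2

/-!
# MP_db9079_lc: the theory of the valued field F_p((t)) is not elementary recursive

The function `J (x, y) = x ^ p + t y ^ p` is an injection of `K²` into `K` for every field `K` of
characteristic `p` and every `t` in `K` which is not a `p`-th power.  Iterating it one defines, by
formulas with a bounded number of variables, linear orders with `2, 4, 16, 65536, ...` elements
together with codes for all maps from these orders to `K`.  So the `n`-th sentence can speak about
all computations below the tower of height `n`, and a diagonal argument shows that no elementary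
function, no program with running time below a fixed tower of exponentials and no elementary
notion of proof with proofs of elementary size decides or proves all the sentences.
-/

set_option autoImplicit false

namespace Pool.Agent.Results.MP_db9079_lc.NonElementary

open Pool.Agent.Y924.EL
open Nat.Partrec (Code)

/-- the sentence belongs to the theory of the valued field `F_p((t))` with the valuation ring
`F_p[[t]]` -/
def InT (p : ℕ) [Fact p.Prime] (φ : Fm) : Prop :=
  ∀ v : ℕ → LaurentSeries (ZMod p),
    Sat (Set.range (algebraMap (PowerSeries (ZMod p)) (LaurentSeries (ZMod p)))) φ v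

/-- the sentence is true in every field of characteristic `p` which is not perfect (with every
subset as the unary predicate) -/
def InAll (p : ℕ) (φ : Fm) : Prop :=
  ∀ (K : Type) [Field K] [CharP K p], (∃ t : K, ∀ u : K, u ^ p ≠ t) →
    ∀ (O : Set K) (v : ℕ → K), Sat O φ v

/-- test sentences: closed, without the predicate for the valuation ring, only with the variables
`x_0, ..., x_63`, with code at least `B` -/
def Test (B : ℕ) (φ : Fm) : Prop := φ.fv = ∅ ∧ φ.InRing 64 ∧ B ≤ φ.code

theorem charP_laurent (p : ℕ) [Fact p.Prime] : CharP (LaurentSeries (ZMod p)) p :=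
  charP_of_injective_ringHom (f := (HahnSeries.C : ZMod p →+* HahnSeries ℤ (ZMod p)))
    HahnSeries.C_injective p

theorem inT_of_inAll (p : ℕ) [Fact p.Prime] {φ : Fm} (h : InAll p φ) : InT p φ := fun v => by
  haveI := charP_laurent p
  exact h (LaurentSeries (ZMod p)) (Pool.Agent.Y692.EL.laurent p) _ v

theorem inAll_of_trueP (p : ℕ) [Fact p.Prime] {φ : Fm} (h : TrueP p φ) : InAll p φ := by
  intro K _ _ ht O v
  obtain ⟨t, ht⟩ := ht
  exact h K O v ⟨t, Pool.Agent.Y692.EL.t_INJ K p t ht⟩

theorem not_inT_neg (p : ℕ) [Fact p.Prime] {φ : Fm} (h : InT p φ) : ¬ TrueP p φ.neg := by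
  intro h1
  exact inT_of_inAll p (inAll_of_trueP p h1) 0 (h 0)

theorem result (p : ℕ) [Fact p.Prime] :
    -- no elementary function decides the theory, even for the test sentences
    (∀ χ : ℕ → ℕ, E3 χ → ∀ B : ℕ, ∃ φ : Fm, Test B φ ∧
      ((χ φ.code = 0 ∧ InT p φ ∧ InAll p φ) ∨
        (χ φ.code ≠ 0 ∧ InT p φ.neg ∧ InAll p φ.neg))) ∧
    -- every program which accepts only sentences of the theory fails, within the time given by
    -- any fixed tower of exponentials, to accept infinitely many true test sentences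
    (∀ c : Code, (∀ φ : Fm, Test 0 φ → ∀ y ∈ c.eval φ.code, y ≠ 0 → InT p φ) →
      ∀ k B : ℕ, ∃ φ : Fm, Test B φ ∧ InT p φ ∧ InAll p φ ∧
        ∀ y ∈ Code.evaln (tower k φ.code) c φ.code, y = 0) ∧
    -- every sound elementary notion of proof needs proofs of non-elementary size
    (∀ R b : ℕ → ℕ, E3 R → E3 b →
      (∀ (φ : Fm) (w : ℕ), Test 0 φ → R (Nat.pair φ.code w) ≠ 0 → InT p φ) →
      ∀ B : ℕ, ∃ φ : Fm, Test B φ ∧ InT p φ ∧ InAll p φ ∧
        ∀ w ≤ b φ.code, R (Nat.pair φ.code w) = 0) := by
  refine ⟨fun χ hχ B => ?_, fun c hc k B => ?_, fun R b hR hb hs B => ?_⟩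
  · obtain ⟨φ, h1, h2⟩ := dec p χ hχ B
    refine ⟨φ, h1, ?_⟩
    rcases h2 with ⟨h2, h3⟩ | ⟨h2, h3⟩
    · exact Or.inl ⟨h2, inT_of_inAll p (inAll_of_trueP p h3), inAll_of_trueP p h3⟩
    · exact Or.inr ⟨h2, inT_of_inAll p (inAll_of_trueP p h3), inAll_of_trueP p h3⟩
  · obtain ⟨φ, h1, h2, h3⟩ := prog p c
      (fun φ h y hy h0 => not_inT_neg p (hc φ h y hy h0)) k B
    exact ⟨φ, h1, inT_of_inAll p (inAll_of_trueP p h2), inAll_of_trueP p h2, h3⟩
  · obtain ⟨φ, h1, h2, h3⟩ := prf p R b hR hb
      (fun φ w h h0 => not_inT_neg p (hs φ w h h0)) B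
    exact ⟨φ, h1, inT_of_inAll p (inAll_of_trueP p h2), inAll_of_trueP p h2, h3⟩

end Pool.Agent.Results.MP_db9079_lc.NonElementary
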