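import Pool.Agent.Y924.UF.Main3
import Pool.Agent.Y15.UF.Res
import Pool.Agent.Y528.UF.Cod
import Pool.Agent.Y606.UF.Fin
import Pool.Agent.Y988.UF.Halt
import Pool.Agent.Y304.UF.Cmp
import Pool.Agent.Y686.UF.Clo
import Pool.Agent.Y514.UF.REN
import Pool.Agent.Y383.UF.FML
import Pool.Agent.Y153.UF.SemAB
import Pool.Agent.Y641.UF.Uni
import Pool.Agent.Y675.UF.Root
import Pool.Agent.Y748.UF.Val
import Pool.Agent.Y155.UF.Fin2
import Pool.Agent.Y410.UF.Disc2
import Pool.Agent.Y824.UF.Fint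
import Pool.Agent.Y833.UF.Ceq
import Pool.Agent.Y662.UF.CAdd
import Pool.Agent.Y74.UF.CMUL
import Pool.Agent.Y43.UF.SEM1
import Pool.Agent.Y182.UF.SEM2
import Pool.Agent.Y824.UF.Sem3
import Pool.Agent.Y891.UF.BAS
import Pool.Agent.Y657.UF.Ind
import Pool.Agent.Y409.UF.Full
import Pool.Agent.Y151.UF.Exr
import Pool.Agent.Y431.UF.Cmpa
import Pool.Agent.Y900.UF.Rec
import Pool.Agent.Y931.UF.TCMP
import Pool.Agent.Y286.UF.TFV
import Pool.Agent.Y924.UF.Scat
import Pool.Agent.Y697.UF.Baire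

/-!
# MP_db9079_lc: uniform finiteness in F_p((t)), or true arithmetic is reducible to its theory

Write `K` for the field `F_p((t))`.  The map `z ↦ z_0` (coefficient of `t ^ 0`) is definable in the
field `K` with the parameter `t`: `z_0 = 0` iff `z = w_0 ^ p - w_0 + t w_1 ^ p + ... +
t ^ (p - 1) w_(p - 1) ^ p` for some `w_i`.  As `z ↦ (z x)_0`, `x` in `K`, are all continuous linear
functionals, and as the functions `1 / ((u - a) (w - b))`, `a, b` in a finite set `S`, are linearly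
independent over `F_p` for suitable `u, w`, every relation between the elements of `S` is of the
form `(s / ((u - a) (w - b)))_0 = 0` for some `s`.  So the field `K` can speak about all relations
on its finite subsets, and this uniformly.  If it can define arbitrarily large finite sets by
one formula with parameters then the numbers `0, 1, 2, ...`, as the numbers of elements of finite
sets, with addition and multiplication are interpretable in `K`, and the theory of `K` is at least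
as complicated as true arithmetic.
-/

set_option autoImplicit false

namespace Pool.Agent.Results.MP_db9079_lc.UniformFiniteness

open Pool.Agent.Y924.EL
open Function

/-- the valuation ring `F_p[[t]]` in `F_p((t))` -/
def ValRing (p : ℕ) : Set (LaurentSeries (ZMod p)) :=
  Set.range (algebraMap (PowerSeries (ZMod p)) (LaurentSeries (ZMod p)))

/-- the number `m` is the code of a closed formula which is true in the field `F_p((t))` with the
unary predicate `P` -/
def InTh (p : ℕ) [Fact p.Prime] (P : Set (LaurentSeries (ZMod p))) (m : ℕ) : Prop :=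
  ∃ ψ : Fm, ψ.code = m ∧ ψ.fv = ∅ ∧ ∀ v : ℕ → LaurentSeries (ZMod p), Sat P ψ v

/-- the subset of `F_p((t))` defined by the formula `φ` in the variable `x_0`, with the parameters
`v 1, v 2, ...`, in the field with the unary predicate `P` -/
def Dfn (p : ℕ) [Fact p.Prime] (P : Set (LaurentSeries (ZMod p))) (φ : Fm)
    (v : ℕ → LaurentSeries (ZMod p)) : Set (LaurentSeries (ZMod p)) :=
  {x | Sat P φ (update v 0 x)}

/-- every point of `S` has a neighbourhood `x + b F_p[[t]]`, `b ≠ 0`, without other points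
of `S` -/
def Discr (p : ℕ) [Fact p.Prime] (S : Set (LaurentSeries (ZMod p))) : Prop :=
  ∀ x ∈ S, ∃ b : LaurentSeries (ZMod p), b ≠ 0 ∧
    ∀ y ∈ S, (∃ z ∈ ValRing p, x + b * z = y) → y = x

/-- every nonempty subset of `S` has an isolated point -/
def Scattered (p : ℕ) [Fact p.Prime] (S : Set (LaurentSeries (ZMod p))) : Prop :=
  ∀ T ⊆ S, T.Nonempty → ∃ x ∈ T, ∃ b : LaurentSeries (ZMod p), b ≠ 0 ∧
    ∀ y ∈ T, (∃ z ∈ ValRing p, x + b * z = y) → y = x

/-- every point outside `S` has a neighbourhood without points of `S` -/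
def ClosedSet (p : ℕ) [Fact p.Prime] (S : Set (LaurentSeries (ZMod p))) : Prop :=
  ∀ x ∉ S, ∃ b : LaurentSeries (ZMod p), b ≠ 0 ∧ ∀ y ∈ S, ¬ ∃ z ∈ ValRing p, x + b * z = y

/-- uniform finiteness, and finiteness of all scattered definable sets -/
def Tame (p : ℕ) [Fact p.Prime] (P : Set (LaurentSeries (ZMod p))) : Prop :=
  (∀ φ : Fm, ∃ N : ℕ, ∀ v, (Dfn p P φ v).Finite → (Dfn p P φ v).ncard ≤ N) ∧
    ∀ (φ : Fm) (v : ℕ → LaurentSeries (ZMod p)), Scattered p (Dfn p P φ v) →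
      (Dfn p P φ v).Finite

/-- true arithmetic, the theory of `(ℕ, +, ·, 1)`, is many-one reducible to the theory of
`F_p((t))` with the unary predicate `P`, by a primitive recursive function; (the formulas of
arithmetic are those of `Fm`, the predicate means the empty set) -/
def Arith (p : ℕ) [Fact p.Prime] (P : Set (LaurentSeries (ZMod p))) : Prop :=
  ∃ F : ℕ → ℕ, Primrec F ∧ ∀ ψ : Fm, ψ.fv = ∅ →
    ((∀ n : ℕ → ℕ, Sat (∅ : Set ℕ) ψ n) ↔ InTh p P (F ψ.code))

theorem tame_of_uniform (p : ℕ) [Fact p.Prime] (P : Set (LaurentSeries (ZMod p)))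
    (h1 : ∀ φ : Fm, ∃ N : ℕ, ∀ v, (Dfn p P φ v).Finite → (Dfn p P φ v).ncard ≤ N) :
    Tame p P := by
  refine ⟨h1, fun φ v hd => ?_⟩
  refine Pool.Agent.Y924.UF.scat_finite (Pool.Agent.Y748.UF.t_VAL Pool.Agent.Y675.UF.t_ROOT)
    p P h1 φ v fun T hT hne => ?_
  obtain ⟨x, hx, b, hb, h2⟩ := hd T hT hne
  refine ⟨x, hx, b, hb, fun y hy => ?_⟩
  rintro ⟨z, hz, h3⟩
  exact h2 y hy ⟨z, hz, by rw [← h3, add_comm]⟩

theorem scattered_of_discr (p : ℕ) [Fact p.Prime] (S : Set (LaurentSeries (ZMod p)))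
    (h : Discr p S) : Scattered p S := by
  rintro T hT ⟨x, hx⟩
  obtain ⟨b, hb, h1⟩ := h x (hT hx)
  exact ⟨x, hx, b, hb, fun y hy => h1 y (hT hy)⟩

theorem scattered_of_closed (p : ℕ) [Fact p.Prime] (S : Set (LaurentSeries (ZMod p)))
    (hS : S.Countable) (h : ClosedSet p S) : Scattered p S := by
  intro T hT hne
  obtain ⟨x, hx, b, hb, h1⟩ := Pool.Agent.Y697.UF.t_BAIRE p S hS (fun x hx => by
    obtain ⟨b, hb, h1⟩ := h x hx
    refine ⟨b, hb, fun y hy => ?_⟩
    rintro ⟨z, hz, h2⟩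
    exact h1 y hy ⟨z, hz, by rw [← h2, add_comm]⟩) T hT hne
  refine ⟨x, hx, b, hb, fun y hy => ?_⟩
  rintro ⟨z, hz, h2⟩
  exact h1 y hy ⟨z, hz, by rw [← h2, add_comm]⟩

theorem tame (p : ℕ) [Fact p.Prime] (P : Set (LaurentSeries (ZMod p)))
    (h : REPred (InTh p P)) : Tame p P := by
  refine tame_of_uniform p P ?_
  exact Pool.Agent.Y924.UF.uniform2 Pool.Agent.Y15.UF.t_RES Pool.Agent.Y528.UF.t_COD
    Pool.Agent.Y514.UF.t_REN Pool.Agent.Y383.UF.t_FML Pool.Agent.Y153.UF.t_SEMA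
    Pool.Agent.Y153.UF.t_SEMB Pool.Agent.Y606.UF.t_FIN
    (Pool.Agent.Y155.UF.t_FIN2 Pool.Agent.Y675.UF.t_ROOT Pool.Agent.Y606.UF.t_FIN)
    (Pool.Agent.Y748.UF.t_VAL Pool.Agent.Y675.UF.t_ROOT) Pool.Agent.Y824.UF.t_FINT
    Pool.Agent.Y641.UF.t_UNI1 Pool.Agent.Y641.UF.t_UNI2 Pool.Agent.Y988.UF.t_HALT
    Pool.Agent.Y304.UF.t_CMP Pool.Agent.Y686.UF.t_CLO Pool.Agent.Y988.UF.t_CINJ p P h

theorem code_all : Pool.Agent.Y924.UF.S_CODE := by
  intro p _ S hS
  obtain ⟨u, w, h⟩ := Pool.Agent.Y924.UF.cod p Pool.Agent.Y15.UF.t_RES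
    Pool.Agent.Y528.UF.t_COD S hS
  exact ⟨_, u, w, h⟩

theorem ind_all : Pool.Agent.Y924.UF.S_IND :=
  Pool.Agent.Y657.UF.t_IND
    (Pool.Agent.Y924.UF.t_BAS Pool.Agent.Y43.UF.t_SEM1 Pool.Agent.Y182.UF.t_SEM2
      Pool.Agent.Y824.UF.t_SEM3 Pool.Agent.Y151.UF.t_EXR Pool.Agent.Y514.UF.t_REN
      (Pool.Agent.Y833.UF.t_CEQ code_all) (Pool.Agent.Y662.UF.t_CADD code_all)
      (Pool.Agent.Y74.UF.t_CMUL code_all) Pool.Agent.Y606.UF.t_FIN
      (Pool.Agent.Y155.UF.t_FIN2 Pool.Agent.Y675.UF.t_ROOT Pool.Agent.Y606.UF.t_FIN)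
      (Pool.Agent.Y748.UF.t_VAL Pool.Agent.Y675.UF.t_ROOT)) Pool.Agent.Y151.UF.t_EXR

theorem tcmp_all : Pool.Agent.Y924.UF.S_TCMP :=
  Pool.Agent.Y931.UF.t_TCMP (Pool.Agent.Y431.UF.t_CMPA Pool.Agent.Y151.UF.t_CMPB)
    Pool.Agent.Y151.UF.t_CMPB Pool.Agent.Y900.UF.t_REC

theorem dichotomy (p : ℕ) [Fact p.Prime] (P : Set (LaurentSeries (ZMod p))) :
    Tame p P ∨ Arith p P := by
  by_cases h : ∀ φ : Fm, ∃ N : ℕ, ∀ v, (Dfn p P φ v).Finite → (Dfn p P φ v).ncard ≤ N
  · exact Or.inl (tame_of_uniform p P h)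
  · right
    push Not at h
    obtain ⟨φ, hφ⟩ := h
    exact Pool.Agent.Y924.UF.interp Pool.Agent.Y686.UF.t_CLO
      (Pool.Agent.Y409.UF.t_FULL code_all Pool.Agent.Y686.UF.t_CLO) ind_all tcmp_all
      Pool.Agent.Y286.UF.t_TFV Pool.Agent.Y988.UF.t_CINJ p P φ hφ

theorem result (p : ℕ) [Fact p.Prime] :
    -- the theory of the valued field: true arithmetic is reducible to it, or it is tame;
    -- it is tame if it is recursively enumerable
    (Tame p (ValRing p) ∨ Arith p (ValRing p)) ∧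
    (REPred (InTh p (ValRing p)) → Tame p (ValRing p)) ∧
    -- the same for the field with any unary predicate
    (∀ P : Set (LaurentSeries (ZMod p)), (Tame p P ∨ Arith p P) ∧
      (REPred (InTh p P) → Tame p P)) ∧
    -- the field with a predicate for an infinite scattered set is undecidable
    (∀ P : Set (LaurentSeries (ZMod p)), P.Infinite → Scattered p P →
      Arith p P ∧ ¬ REPred (InTh p P)) ∧
    -- discrete sets and countable closed sets are scattered
    (∀ S : Set (LaurentSeries (ZMod p)), Discr p S ∨ (S.Countable ∧ ClosedSet p S) →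
      Scattered p S) ∧
    -- one formula defines, with parameters, all relations on all finite sets
    ∃ β : Fm, ∀ S : Set (LaurentSeries (ZMod p)), S.Finite →
      ∃ v : ℕ → LaurentSeries (ZMod p),
        ∀ R : LaurentSeries (ZMod p) → LaurentSeries (ZMod p) → Prop,
          ∃ s : LaurentSeries (ZMod p), ∀ (P : Set (LaurentSeries (ZMod p))), ∀ a ∈ S, ∀ b ∈ S,
            (Sat P β (update (update (update v 2 s) 0 a) 1 b) ↔ R a b) := by
  refine ⟨dichotomy p _, tame p _, fun P => ⟨dichotomy p P, tame p P⟩, fun P hP hd => ?_,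
    fun S hS => hS.elim (scattered_of_discr p S) fun h => scattered_of_closed p S h.1 h.2, ?_⟩
  · have h0 : ¬ Tame p P := fun h => by
      have h1 := h.2 (.val 0) 0
      have h2 : Dfn p P (.val 0) 0 = P := by
        ext x
        simp [Dfn, Sat]
      rw [h2] at h1
      exact hP (h1 hd)
    exact ⟨(dichotomy p P).resolve_left h0, fun h => h0 (tame p P h)⟩
  · refine ⟨Pool.Agent.Y924.UF.BFa p 2 0 1, fun S hS => ?_⟩
    obtain ⟨u, w, h⟩ := Pool.Agent.Y924.UF.cod p Pool.Agent.Y15.UF.t_RES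
      Pool.Agent.Y528.UF.t_COD S hS
    refine ⟨update (update (fun _ => Pool.Agent.Y924.UF.tt p) 65 u) 66 w, fun R => ?_⟩
    obtain ⟨s, hs⟩ := h R
    refine ⟨s, fun P a ha b hb => ?_⟩
    rw [← hs a ha b hb, Pool.Agent.Y383.UF.sat_BFa P p (by norm_num) (by norm_num) (by norm_num)
      (by norm_num) (by norm_num) (by norm_num)]
    simp

end Pool.Agent.Results.MP_db9079_lc.UniformFiniteness
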